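import Mathlib
import Pool.Agent.Lib.Helper97.PAM.Defs
import Pool.Agent.Lib.Helper97.PAM.Field

/-!
# Both limits of the quenched Lyapunov exponent can fail

For every dimension `d ≥ 1` we construct a bounded, time-continuous random field which satisfies
(A1) and (A2) and for which `λ_0(κ) = γ` for ALL `κ > 0` and all `γ > 0`, although the mean of the
field is at most `1/2`. Hence neither the limit `κ ↓ 0` nor the limit `κ → ∞` equals `ργ`.

The field is almost periodic: it is read off along the orbits of a translation action of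
`ℤ^d × ℝ` on a compact abelian group (a solenoid) with Haar measure; time translations and space
translations each have dense orbits, which gives the ergodicity in (A1). It takes its maximal
value `1` on strips of the form `{(x,t) : |x_0 - (c - v t)| ≤ R}`, and strips with `R` as large
and `v > 0` as small as one likes are present in every realisation. A walk of any diffusivity can
follow such a strip at a cost which is as small as one likes on the exponential scale.
-/

open MeasureTheory Filter Set Topology ProbabilityTheory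
open scoped ENNReal NNReal

namespace Pool.Agent.Results.MP_e6ac48_pr.LyapunovLimits

open Pool.Agent.Lib.Helper97.PAM

/-- For every `d ≥ 1` there is a random field `ξ` on `ℤ^d × [0,∞)`, with values in `[0,1]` and
continuous in time, satisfying (A1) and (A2), with mean `ρ ≤ 1/2`, such that for every `γ > 0`
the quenched Lyapunov exponent exists and equals `γ` for every `κ > 0`. Consequently
`λ_0(κ)` converges to `ργ` neither as `κ ↓ 0` nor as `κ → ∞`. -/
theorem result (d : ℕ) [NeZero d] :
    ∃ (Ω : Type) (_ : MeasurableSpace Ω) (P : Measure Ω) (ξ : Ω → (Fin d → ℤ) → ℝ → ℝ) (ρ : ℝ),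
      IsProbabilityMeasure P ∧ AssumptionA1 P ξ ρ ∧ AssumptionA2 P ξ ∧
      (∀ ω x t, 0 ≤ ξ ω x t ∧ ξ ω x t ≤ 1) ∧ (∀ ω x, Continuous (ξ ω x)) ∧ ρ ≤ 1 / 2 ∧
      ∀ γ : ℝ, 0 < γ →
        (∀ κ : ℝ, 0 < κ → IsQuenchedLyapunovExponent P ξ κ γ γ) ∧
        ∀ lam : ℝ → ℝ, (∀ κ : ℝ, 0 < κ → IsQuenchedLyapunovExponent P ξ κ γ (lam κ)) →
          (∀ κ : ℝ, 0 < κ → lam κ = γ) ∧
          ¬ Tendsto lam (𝓝[>] 0) (𝓝 (ρ * γ)) ∧ ¬ Tendsto lam atTop (𝓝 (ρ * γ)) := by
  have h00 : ∀ w : solenoid, field d w 0 0 = F w := by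
    intro w
    unfold field
    simp only [Pi.zero_apply]
    rw [tr_zero, add_zero]
  have hρ : ∫ w, field d w 0 0 ∂haar ≤ 1 / 2 := by
    simp_rw [h00]
    exact integral_F_le
  refine ⟨solenoid, inferInstance, haar, field d, ∫ w, field d w 0 0 ∂haar, inferInstance,
    field_A1, field_A2, fun w x t => ⟨F_nonneg _, F_le_one _⟩,
    fun w x => continuous_F_time w (x 0), hρ, fun γ hγ => ?_⟩
  have hL : ∀ κ : ℝ, 0 < κ → IsQuenchedLyapunovExponent haar (field d) κ γ γ := fun κ hκ =>
    ae_of_all _ fun w => field_lyapunov hκ hγ w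
  refine ⟨hL, fun lam hlam => ?_⟩
  have heq : ∀ κ : ℝ, 0 < κ → lam κ = γ := by
    intro κ hκ
    have h1 := (hlam κ hκ).and (hL κ hκ)
    obtain ⟨w, hw1, hw2⟩ := h1.exists
    exact tendsto_nhds_unique hw1 hw2
  have hne : γ ≠ (∫ w, field d w 0 0 ∂haar) * γ := by
    intro h
    nlinarith
  refine ⟨heq, fun h => ?_, fun h => ?_⟩
  · have h2 : Tendsto lam (𝓝[>] 0) (𝓝 γ) := by
      refine tendsto_const_nhds.congr' ?_
      filter_upwards [self_mem_nhdsWithin] with κ hκ
      exact (heq κ hκ).symm
    exact hne (tendsto_nhds_unique h2 h)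
  · have h2 : Tendsto lam atTop (𝓝 γ) := by
      refine tendsto_const_nhds.congr' ?_
      filter_upwards [eventually_gt_atTop 0] with κ hκ
      exact (heq κ hκ).symm
    exact hne (tendsto_nhds_unique h2 h)

end Pool.Agent.Results.MP_e6ac48_pr.LyapunovLimits
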